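import Mathlib

/-!
# Quadratic growth of `N(r, L)` under a primitive linear relation

The matrices are translation kernels `M(x, y) = G (y - x)` on the boxes `[μ]⁴ ⊆ ℤ² × ℤ²`.  In the
plane `ℤ²` we use the `2N+1` linear forms `b - i a`, `0 ≤ i ≤ 2N`, and obtain integer valued
functions `P c`, `Q c` (`c < N`), `Y`, `A`, `B` which sum up to `1`, which are nonnegative away
from the origin, and which take the values `1, 1, 1, -N, -N` at the origin.  The product of two
planes then carries `2N+1` integer valued functions with sum `1`, nonnegative away from the origin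
and with values `1` (`N+1` times) and `-1` (`N` times) at the origin.
-/

set_option autoImplicit false

open Finset

namespace Pool.Agent.Helper60.QGrowth

/-! ### Translation kernels of small rank -/

section Good

variable {F : Type*} [Field F] {W : Type*} [AddCommGroup W]

/-- The translation kernels `G (y - x)` on the sets `X μ` factor through sets of size
`O(s μ)`. -/
def Good (X : ℕ → Type) (pos : ∀ μ, X μ → W) (s : ℕ → ℕ) (G : W → F) : Prop :=
  ∃ C : ℕ, ∀ μ : ℕ, ∃ (T : Type) (_ : Fintype T), Fintype.card T ≤ C * s μ ∧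
    ∃ (P : X μ → T → F) (Q : T → X μ → F), ∀ x y, G (pos μ y - pos μ x) = ∑ t, P x t * Q t y

/-- The submodule of functions whose translation kernels have small rank. -/
def goodSub (F : Type*) [Field F] (X : ℕ → Type) (pos : ∀ μ, X μ → W) (s : ℕ → ℕ) :
    Submodule F (W → F) where
  carrier := {G | Good X pos s G}
  add_mem' := by
    rintro G H ⟨C, hC⟩ ⟨D, hD⟩
    refine ⟨C + D, fun μ => ?_⟩
    obtain ⟨T, iT, hT, P, Q, hPQ⟩ := hC μ
    obtain ⟨T', iT', hT', P', Q', hPQ'⟩ := hD μ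
    refine ⟨T ⊕ T', inferInstance, ?_, fun x => Sum.elim (P x) (P' x),
      fun t => Sum.elim Q Q' t, fun x y => ?_⟩
    · rw [Fintype.card_sum, add_mul]; exact add_le_add hT hT'
    · simp [hPQ, hPQ', Fintype.sum_sum_type]
  zero_mem' := by
    refine ⟨0, fun μ => ⟨Empty, inferInstance, by simp, fun _ t => t.elim, fun t _ => t.elim,
      fun x y => by simp⟩⟩
  smul_mem' := by
    rintro c G ⟨C, hC⟩
    refine ⟨C, fun μ => ?_⟩
    obtain ⟨T, iT, hT, P, Q, hPQ⟩ := hC μ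
    refine ⟨T, iT, hT, fun x t => c * P x t, Q, fun x y => ?_⟩
    simp [hPQ, Finset.mul_sum, mul_assoc]

theorem mem_goodSub {X : ℕ → Type} {pos : ∀ μ, X μ → W} {s : ℕ → ℕ} {G : W → F} :
    G ∈ goodSub F X pos s ↔ Good X pos s G := Iff.rfl

/-- A function of a group homomorphism with few values on `X μ` is good. -/
theorem good_comp {V : Type} [AddCommGroup V] [DecidableEq V] {X : ℕ → Type}
    [∀ μ, Fintype (X μ)] {pos : ∀ μ, X μ → W} {s : ℕ → ℕ} (φ : W →+ V) (h : V → F) (C : ℕ)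
    (hC : ∀ μ, (univ.image fun x : X μ => φ (pos μ x)).card ≤ C * s μ) :
    (fun w => h (φ w)) ∈ goodSub F X pos s := by
  refine ⟨C, fun μ => ⟨(univ.image fun x : X μ => φ (pos μ x)), inferInstance, ?_,
    fun x t => if φ (pos μ x) = t.1 then 1 else 0, fun t y => h (φ (pos μ y) - t.1),
    fun x y => ?_⟩⟩
  · rw [Fintype.card_coe]; exact hC μ
  · have hx : φ (pos μ x) ∈ univ.image fun x : X μ => φ (pos μ x) :=
      mem_image_of_mem _ (mem_univ x)
    rw [Finset.sum_eq_single (⟨_, hx⟩ : (univ.image fun x : X μ => φ (pos μ x)))]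
    · simp
    · intro t _ ht
      have h' : ¬ φ (pos μ x) = t.1 := fun h' => ht (Subtype.ext h'.symm)
      simp [h']
    · intro h'
      exact absurd (mem_univ _) h'

/-- Products of good functions are good. -/
theorem good_mul {W' : Type*} [AddCommGroup W'] {X X' : ℕ → Type} {pos : ∀ μ, X μ → W}
    {pos' : ∀ μ, X' μ → W'} {s s' : ℕ → ℕ} {G : W → F} {H : W' → F}
    (hG : G ∈ goodSub F X pos s) (hH : H ∈ goodSub F X' pos' s') :
    (fun w : W × W' => G w.1 * H w.2) ∈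
      goodSub F (fun μ => X μ × X' μ) (fun μ x => (pos μ x.1, pos' μ x.2))
        (fun μ => s μ * s' μ) := by
  obtain ⟨C, hC⟩ := hG
  obtain ⟨D, hD⟩ := hH
  refine ⟨C * D, fun μ => ?_⟩
  obtain ⟨T, iT, hT, P, Q, hPQ⟩ := hC μ
  obtain ⟨T', iT', hT', P', Q', hPQ'⟩ := hD μ
  refine ⟨T × T', inferInstance, ?_, fun x t => P x.1 t.1 * P' x.2 t.2,
    fun t x => Q t.1 x.1 * Q' t.2 x.2, fun x y => ?_⟩
  · rw [Fintype.card_prod]
    calc Fintype.card T * Fintype.card T' ≤ (C * s μ) * (D * s' μ) := Nat.mul_le_mul hT hT'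
      _ = C * D * (s μ * s' μ) := by ring
  · rw [Fintype.sum_prod_type]
    simp only [Prod.fst_sub, Prod.snd_sub, hPQ, hPQ']
    rw [Finset.sum_mul_sum]
    refine Finset.sum_congr rfl fun t _ => Finset.sum_congr rfl fun t' _ => ?_
    ring

/-- Good functions have kernels of small rank. -/
theorem good_rank {X : ℕ → Type} [∀ μ, Fintype (X μ)] {pos : ∀ μ, X μ → W} {s : ℕ → ℕ}
    {G : W → F} (hG : G ∈ goodSub F X pos s) :
    ∃ C : ℕ, ∀ μ, (Matrix.of fun x y : X μ => G (pos μ y - pos μ x)).rank ≤ C * s μ := by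
  obtain ⟨C, hC⟩ := hG
  refine ⟨C, fun μ => ?_⟩
  obtain ⟨T, iT, hT, P, Q, hPQ⟩ := hC μ
  have : (Matrix.of fun x y : X μ => G (pos μ y - pos μ x)) = Matrix.of P * Matrix.of Q := by
    ext x y
    simp [Matrix.mul_apply, hPQ]
  rw [this]
  exact ((Matrix.rank_mul_le_left _ _).trans (Matrix.rank_le_card_width _)).trans hT

end Good

/-! ### The plane -/

section Plane

/-- The linear form `b - i a`. -/
def lin (i : ℕ) : ℤ × ℤ →+ ℤ where
  toFun w := w.2 - i * w.1
  map_zero' := by simp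
  map_add' := by intro x y; simp only [Prod.fst_add, Prod.snd_add]; ring

theorem lin_apply (i : ℕ) (w : ℤ × ℤ) : lin i w = w.2 - i * w.1 := rfl

/-- indicator of the open half plane -/
def gI (i : ℕ) (w : ℤ × ℤ) : ℤ := if 0 < lin i w then 1 else 0

/-- indicator of the line -/
def eI (i : ℕ) (w : ℤ × ℤ) : ℤ := if lin i w = 0 then 1 else 0

theorem gI_nonneg (i : ℕ) (w : ℤ × ℤ) : 0 ≤ gI i w := by
  unfold gI; split_ifs <;> simp

theorem eI_nonneg (i : ℕ) (w : ℤ × ℤ) : 0 ≤ eI i w := by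
  unfold eI; split_ifs <;> simp

theorem ge_le_one (i : ℕ) (w : ℤ × ℤ) : gI i w + eI i w ≤ 1 := by
  unfold gI eI; split_ifs <;> omega

/-- `h_{i+1} ≤ g_i` when `0 ≤ a`. -/
theorem step_up {w : ℤ × ℤ} (hw : w ≠ 0) (ha : 0 ≤ w.1) (i : ℕ) :
    gI (i + 1) w + eI (i + 1) w ≤ gI i w := by
  by_cases h : 0 < lin i w
  · have : gI i w = 1 := if_pos h
    rw [this]; exact ge_le_one _ _
  · have h1 : lin (i + 1) w < 0 := by
      rw [lin_apply] at h ⊢
      push_cast
      rcases ha.lt_or_eq with ha | ha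
      · nlinarith
      · have hb : w.2 ≠ 0 := by
          intro hb
          exact hw (Prod.ext ha.symm hb)
        rw [← ha] at h ⊢
        simp only [mul_zero, sub_zero] at h ⊢
        omega
    have h2 : gI (i + 1) w = 0 := if_neg (by omega)
    have h3 : eI (i + 1) w = 0 := if_neg (by omega)
    rw [h2, h3]
    simpa using gI_nonneg i w

/-- `h_i ≤ g_{i+1}` when `a < 0`. -/
theorem step_down {w : ℤ × ℤ} (ha : w.1 < 0) (i : ℕ) :
    gI i w + eI i w ≤ gI (i + 1) w := by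
  by_cases h : 0 < lin (i + 1) w
  · have : gI (i + 1) w = 1 := if_pos h
    rw [this]; exact ge_le_one _ _
  · have h1 : lin i w < 0 := by
      rw [lin_apply] at h ⊢
      push_cast at h
      nlinarith
    have h2 : gI i w = 0 := if_neg (by omega)
    have h3 : eI i w = 0 := if_neg (by omega)
    rw [h2, h3]
    simpa using gI_nonneg (i + 1) w

variable (N : ℕ)

/-- first alternating combination -/
def fA (w : ℤ × ℤ) : ℤ :=
  ∑ c : Fin N, gI (2 * c) w + gI (2 * N) w - ∑ c : Fin N, (gI (2 * c + 1) w + eI (2 * c + 1) w)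

/-- second alternating combination -/
def fB (w : ℤ × ℤ) : ℤ :=
  1 - ∑ c : Fin N, (gI (2 * c) w + eI (2 * c) w) - (gI (2 * N) w + eI (2 * N) w)
    + ∑ c : Fin N, gI (2 * c + 1) w

theorem sum_one (w : ℤ × ℤ) :
    ∑ c : Fin N, eI (2 * c) w + ∑ c : Fin N, eI (2 * c + 1) w + eI (2 * N) w + fA N w + fB N w
      = 1 := by
  unfold fA fB
  simp only [Finset.sum_add_distrib]
  ring

theorem gI_zero (i : ℕ) : gI i 0 = 0 := by simp [gI]

theorem eI_zero (i : ℕ) : eI i 0 = 1 := by simp [eI]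

theorem fA_zero : fA N 0 = -N := by simp [fA, gI_zero, eI_zero]

theorem fB_zero : fB N 0 = -N := by simp [fB, gI_zero, eI_zero]

theorem shift (f : ℕ → ℤ) :
    ∑ c : Fin N, f (2 * c) + f (2 * N) = f 0 + ∑ c : Fin N, f (2 * c + 1 + 1) := by
  have h1 := Fin.sum_univ_castSucc (fun c : Fin (N + 1) => f (2 * c))
  have h2 := Fin.sum_univ_succ (fun c : Fin (N + 1) => f (2 * c))
  simp only [Fin.val_castSucc, Fin.val_last, Fin.val_zero, mul_zero, Fin.val_succ] at h1 h2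
  rw [← h1, h2]
  rfl

theorem fA_nonneg {w : ℤ × ℤ} (hw : w ≠ 0) : 0 ≤ fA N w := by
  unfold fA
  rcases le_or_gt 0 w.1 with ha | ha
  · have h : ∑ c : Fin N, (gI (2 * c + 1) w + eI (2 * c + 1) w) ≤ ∑ c : Fin N, gI (2 * c) w :=
      Finset.sum_le_sum fun c _ => step_up hw ha (2 * c)
    have := gI_nonneg (2 * N) w
    linarith
  · have h : ∑ c : Fin N, (gI (2 * c + 1) w + eI (2 * c + 1) w) ≤
        ∑ c : Fin N, gI (2 * c + 1 + 1) w :=
      Finset.sum_le_sum fun c _ => step_down ha (2 * c + 1)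
    have h1 := gI_nonneg 0 w
    have h2 := shift N (fun i => gI i w)
    linarith

theorem fB_nonneg {w : ℤ × ℤ} (hw : w ≠ 0) : 0 ≤ fB N w := by
  unfold fB
  rcases le_or_gt 0 w.1 with ha | ha
  · have h : ∑ c : Fin N, (gI (2 * c + 1 + 1) w + eI (2 * c + 1 + 1) w) ≤
        ∑ c : Fin N, gI (2 * c + 1) w :=
      Finset.sum_le_sum fun c _ => step_up hw ha (2 * c + 1)
    have h1 := ge_le_one 0 w
    have h2 := shift N (fun i => gI i w + eI i w)
    linarith
  · have h : ∑ c : Fin N, (gI (2 * c) w + eI (2 * c) w) ≤ ∑ c : Fin N, gI (2 * c + 1) w :=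
      Finset.sum_le_sum fun c _ => step_down ha (2 * c)
    have h1 := ge_le_one (2 * N) w
    linarith

end Plane

/-! ### The product of two planes: the algebra of the classes -/

section Alg

variable {N : ℕ}

/-- the `c`-th function with value `-1` at the origin -/
def neg1 (P Q : Fin N → ℤ) (Y A B d : ℤ) (U V : Fin N → ℤ) (Z A' B' d' : ℤ) (c : Fin N) : ℤ :=
  P c * (∑ i, U i + A') + (∑ i, P i) * V c + Q c * (∑ i, V i - V c + Z + B')
    + (∑ i, Q i + A) * U c + (Y + B) * V c - d - d'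

/-- the remaining function -/
def rest (P Q : Fin N → ℤ) (Y A B d : ℤ) (U V : Fin N → ℤ) (Z A' B' d' : ℤ) : ℤ :=
  1 - ∑ c, neg1 P Q Y A B d U V Z A' B' d' c - ∑ c, Q c * V c

theorem sum_neg1 (P Q : Fin N → ℤ) (Y A B d : ℤ) (U V : Fin N → ℤ) (Z A' B' d' : ℤ) :
    ∑ c, neg1 P Q Y A B d U V Z A' B' d' c =
      (∑ i, P i) * (∑ i, U i + A') + (∑ i, P i) * (∑ i, V i)
        + ((∑ i, Q i) * (∑ i, V i + Z + B') - ∑ i, Q i * V i)
        + (∑ i, Q i + A) * (∑ i, U i) + (Y + B) * (∑ i, V i) - N * d - N * d' := by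
  have h : ∀ c, neg1 P Q Y A B d U V Z A' B' d' c =
      P c * (∑ i, U i + A') + (∑ i, P i) * V c + Q c * (∑ i, V i + Z + B') - Q c * V c
        + (∑ i, Q i + A) * U c + (Y + B) * V c - d - d' := by
    intro c; unfold neg1; ring
  simp only [h, Finset.sum_add_distrib, Finset.sum_sub_distrib, ← Finset.mul_sum,
    ← Finset.sum_mul, Finset.sum_const, Finset.card_univ, Fintype.card_fin, nsmul_eq_mul]
  ring

theorem rest_eq (P Q : Fin N → ℤ) (Y A B d : ℤ) (U V : Fin N → ℤ) (Z A' B' d' : ℤ)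
    (h : ∑ i, P i + ∑ i, Q i + Y + A + B = 1) (h' : ∑ i, U i + ∑ i, V i + Z + A' + B' = 1) :
    rest P Q Y A B d U V Z A' B' d' =
      (∑ i, P i) * (Z + B') + (∑ i, Q i) * A' + Y * (∑ i, U i + Z + A' + B')
        + A * (∑ i, V i + Z + A' + B') + B * (∑ i, U i + Z + A' + B') + N * (d + d') := by
  unfold rest
  rw [sum_neg1]
  linear_combination (-1 : ℤ) * h' - (∑ i, U i + ∑ i, V i + Z + A' + B') * h

variable (P Q : Fin N → ℤ) (Y A B : ℤ) (U V : Fin N → ℤ) (Z A' B' : ℤ)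
  (h : ∑ i, P i + ∑ i, Q i + Y + A + B = 1) (h' : ∑ i, U i + ∑ i, V i + Z + A' + B' = 1)

include h h'

/-- both components nonzero -/
theorem case_generic (hP : ∀ i, 0 ≤ P i) (hQ : ∀ i, 0 ≤ Q i) (hY : 0 ≤ Y) (hA : 0 ≤ A)
    (hB : 0 ≤ B) (hU : ∀ i, 0 ≤ U i) (hV : ∀ i, 0 ≤ V i) (hZ : 0 ≤ Z) (hA' : 0 ≤ A')
    (hB' : 0 ≤ B') :
    (∀ c, 0 ≤ neg1 P Q Y A B 0 U V Z A' B' 0 c) ∧ 0 ≤ rest P Q Y A B 0 U V Z A' B' 0 := by
  have sP : 0 ≤ ∑ i, P i := Finset.sum_nonneg fun i _ => hP i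
  have sQ : 0 ≤ ∑ i, Q i := Finset.sum_nonneg fun i _ => hQ i
  have sU : 0 ≤ ∑ i, U i := Finset.sum_nonneg fun i _ => hU i
  have sV : 0 ≤ ∑ i, V i := Finset.sum_nonneg fun i _ => hV i
  constructor
  · intro c
    have hc : 0 ≤ ∑ i, V i - V c := by
      have := Finset.single_le_sum (fun i _ => hV i) (Finset.mem_univ c)
      linarith
    have h1 := hP c
    have h2 := hQ c
    have h3 := hU c
    have h4 := hV c
    unfold neg1
    have e1 : 0 ≤ P c * (∑ i, U i + A') := by positivity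
    have e2 : 0 ≤ (∑ i, P i) * V c := by positivity
    have e3 : 0 ≤ Q c * (∑ i, V i - V c + Z + B') := mul_nonneg h2 (by linarith)
    have e4 : 0 ≤ (∑ i, Q i + A) * U c := by positivity
    have e5 : 0 ≤ (Y + B) * V c := by positivity
    linarith
  · rw [rest_eq P Q Y A B 0 U V Z A' B' 0 h h']
    positivity

omit h in
/-- first component zero, second nonzero -/
theorem case_left (hU : ∀ i, 0 ≤ U i) (hZ : 0 ≤ Z) (hA' : 0 ≤ A') (hB' : 0 ≤ B') :
    (∀ c, neg1 (fun _ => 1) (fun _ => 1) 1 (-N) (-N) 1 U V Z A' B' 0 c = 0) ∧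
      0 ≤ rest (fun _ => 1) (fun _ => 1) 1 (-N) (-N) 1 U V Z A' B' 0 := by
  have h0 : ∀ c, neg1 (fun _ => 1) (fun _ => 1) 1 (-N) (-N) 1 U V Z A' B' 0 c = 0 := by
    intro c
    unfold neg1
    simp only [Finset.sum_const, Finset.card_univ, Fintype.card_fin, nsmul_eq_mul, mul_one]
    linear_combination h'
  refine ⟨h0, ?_⟩
  unfold rest
  have sU : 0 ≤ ∑ i, U i := Finset.sum_nonneg fun i _ => hU i
  simp only [h0, Finset.sum_const_zero, one_mul]
  linarith

omit h' in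
/-- second component zero, first nonzero -/
theorem case_right (hP : ∀ i, 0 ≤ P i) (hY : 0 ≤ Y) (hA : 0 ≤ A) (hB : 0 ≤ B) :
    (∀ c, neg1 P Q Y A B 0 (fun _ => 1) (fun _ => 1) 1 (-N) (-N) 1 c = 0) ∧
      0 ≤ rest P Q Y A B 0 (fun _ => 1) (fun _ => 1) 1 (-N) (-N) 1 := by
  have h0 : ∀ c, neg1 P Q Y A B 0 (fun _ => 1) (fun _ => 1) 1 (-N) (-N) 1 c = 0 := by
    intro c
    unfold neg1
    simp only [Finset.sum_const, Finset.card_univ, Fintype.card_fin, nsmul_eq_mul, mul_one]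
    linear_combination h
  refine ⟨h0, ?_⟩
  unfold rest
  have sP : 0 ≤ ∑ i, P i := Finset.sum_nonneg fun i _ => hP i
  simp only [h0, Finset.sum_const_zero, mul_one]
  linarith

omit h h' in
/-- the origin -/
theorem case_zero :
    (∀ c, neg1 (N := N) (fun _ => 1) (fun _ => 1) 1 (-N) (-N) 1
        (fun _ => 1) (fun _ => 1) 1 (-N) (-N) 1 c = -1) ∧
      rest (N := N) (fun _ => 1) (fun _ => 1) 1 (-N) (-N) 1
        (fun _ => 1) (fun _ => 1) 1 (-N) (-N) 1 = 1 := by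
  have h0 : ∀ c, neg1 (N := N) (fun _ => 1) (fun _ => 1) 1 (-N) (-N) 1
        (fun _ => 1) (fun _ => 1) 1 (-N) (-N) 1 c = -1 := by
    intro c
    unfold neg1
    simp only [Finset.sum_const, Finset.card_univ, Fintype.card_fin, nsmul_eq_mul, mul_one]
    ring
  refine ⟨h0, ?_⟩
  unfold rest
  simp [h0]

end Alg

/-! ### The kernel -/

section Kernel

/-- indicator of the origin -/
def dI (w : ℤ × ℤ) : ℤ := if w = 0 then 1 else 0

variable (N : ℕ)

/-- the `c`-th function with value `-1` at the origin -/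
def negF (c : Fin N) (w : (ℤ × ℤ) × (ℤ × ℤ)) : ℤ :=
  neg1 (fun i => eI (2 * i) w.1) (fun i => eI (2 * i + 1) w.1) (eI (2 * N) w.1) (fA N w.1)
    (fB N w.1) (dI w.1) (fun i => eI (2 * i) w.2) (fun i => eI (2 * i + 1) w.2) (eI (2 * N) w.2)
    (fA N w.2) (fB N w.2) (dI w.2) c

/-- the `c`-th function with value `1` at the origin -/
def posF (c : Fin N) (w : (ℤ × ℤ) × (ℤ × ℤ)) : ℤ := eI (2 * c + 1) w.1 * eI (2 * c + 1) w.2

/-- the remaining function with value `1` at the origin -/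
def restF (w : (ℤ × ℤ) × (ℤ × ℤ)) : ℤ :=
  1 - ∑ c, negF N c w - ∑ c, posF N c w

theorem posF_nonneg (c : Fin N) (w : (ℤ × ℤ) × (ℤ × ℤ)) : 0 ≤ posF N c w :=
  mul_nonneg (eI_nonneg _ _) (eI_nonneg _ _)

theorem at_zero : (∀ c, negF N c 0 = -1) ∧ (∀ c, posF N c 0 = 1) ∧ restF N 0 = 1 := by
  have hd : dI 0 = 1 := by simp [dI]
  have h1 : ∀ c, posF N c 0 = 1 := by
    intro c; simp [posF, eI_zero]
  have h0 : ∀ c, negF N c 0 = -1 := by
    intro c
    simp only [negF, Prod.fst_zero, Prod.snd_zero, eI_zero, fA_zero, fB_zero, hd]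
    exact (case_zero (N := N)).1 c
  refine ⟨h0, h1, ?_⟩
  simp [restF, h0, h1]

theorem off_zero {w : (ℤ × ℤ) × (ℤ × ℤ)} (hw : w ≠ 0) :
    (∀ c, 0 ≤ negF N c w) ∧ 0 ≤ restF N w := by
  obtain ⟨x, y⟩ := w
  have hd : dI 0 = 1 := by simp [dI]
  have sx := sum_one N x
  have sy := sum_one N y
  by_cases hx : x = 0
  · subst hx
    have hy : y ≠ 0 := fun h => hw (by rw [h]; rfl)
    have hdy : dI y = 0 := if_neg hy
    obtain ⟨a, b⟩ := case_left (fun i : Fin N => eI (2 * i) y) (fun i => eI (2 * i + 1) y)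
      (eI (2 * N) y) (fA N y) (fB N y) sy (fun i => eI_nonneg _ _) (eI_nonneg _ _)
      (fA_nonneg N hy) (fB_nonneg N hy)
    constructor
    · intro c
      simp only [negF, eI_zero, fA_zero, fB_zero, hd, hdy]
      exact (a c).ge
    · simpa only [restF, rest, negF, posF, eI_zero, fA_zero, fB_zero, hd, hdy] using b
  · have hdx : dI x = 0 := if_neg hx
    by_cases hy : y = 0
    · subst hy
      obtain ⟨a, b⟩ := case_right (fun i : Fin N => eI (2 * i) x) (fun i => eI (2 * i + 1) x)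
        (eI (2 * N) x) (fA N x) (fB N x) sx (fun i => eI_nonneg _ _) (eI_nonneg _ _)
        (fA_nonneg N hx) (fB_nonneg N hx)
      constructor
      · intro c
        simp only [negF, eI_zero, fA_zero, fB_zero, hd, hdx]
        exact (a c).ge
      · simpa only [restF, rest, negF, posF, eI_zero, fA_zero, fB_zero, hd, hdx] using b
    · have hdy : dI y = 0 := if_neg hy
      obtain ⟨a, b⟩ := case_generic (fun i : Fin N => eI (2 * i) x) (fun i => eI (2 * i + 1) x)
        (eI (2 * N) x) (fA N x) (fB N x)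
        (fun i : Fin N => eI (2 * i) y) (fun i => eI (2 * i + 1) y)
        (eI (2 * N) y) (fA N y) (fB N y) sx sy
        (fun i => eI_nonneg _ _) (fun i => eI_nonneg _ _) (eI_nonneg _ _)
        (fA_nonneg N hx) (fB_nonneg N hx)
        (fun i => eI_nonneg _ _) (fun i => eI_nonneg _ _) (eI_nonneg _ _)
        (fA_nonneg N hy) (fB_nonneg N hy)
      constructor
      · intro c
        simp only [negF, hdx, hdy]
        exact a c
      · simpa only [restF, rest, negF, posF, hdx, hdy] using b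

variable {F : Type*} [Field F]

/-- A combination with nonnegative integer weights of total mass one takes one of the values. -/
theorem comb_mem {K : Type*} [Fintype K] (L : Finset F) (v : K → F) (hv : ∀ k, v k ∈ L)
    (n : K → ℤ) (hn : ∀ k, 0 ≤ n k) (hs : ∑ k, n k = 1) : ∑ k, v k * (n k : F) ∈ L := by
  classical
  obtain ⟨k, hk⟩ : ∃ k, 0 < n k := by
    by_contra hcon
    push Not at hcon
    have : ∑ k, n k ≤ 0 := Finset.sum_nonpos fun k _ => hcon k
    omega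
  have h1 : n k + ∑ j ∈ univ.erase k, n j = 1 := by
    rw [Finset.add_sum_erase _ _ (mem_univ k)]; exact hs
  have h2 : 0 ≤ ∑ j ∈ univ.erase k, n j := Finset.sum_nonneg fun j _ => hn j
  have h3 : ∑ j ∈ univ.erase k, n j = 0 := by omega
  have h4 : ∀ j ∈ univ.erase k, n j = 0 :=
    (Finset.sum_eq_zero_iff_of_nonneg fun j _ => hn j).1 h3
  rw [Finset.sum_eq_single k]
  · have : n k = 1 := by omega
    rw [this]; simpa using hv k
  · intro j _ hj
    rw [h4 j (mem_erase.2 ⟨hj, mem_univ j⟩)]; simp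
  · intro h; exact absurd (mem_univ k) h

/-- the kernel -/
def ker (p0 : F) (p q : Fin N → F) (w : (ℤ × ℤ) × (ℤ × ℤ)) : F :=
  p0 * (restF N w : F) + ∑ c, q c * (negF N c w : F) + ∑ c, p c * (posF N c w : F)

theorem ker_zero (p0 : F) (p q : Fin N → F) (h : p0 + ∑ c, p c = ∑ c, q c) :
    ker N p0 p q 0 = 0 := by
  obtain ⟨h1, h2, h3⟩ := at_zero N
  simp only [ker, h1, h2, h3, Int.cast_one, mul_one, Int.cast_neg, mul_neg, Finset.sum_neg_distrib]
  rw [← h]; ring

theorem ker_mem (L : Finset F) (p0 : F) (p q : Fin N → F) (h0 : p0 ∈ L) (hp : ∀ c, p c ∈ L)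
    (hq : ∀ c, q c ∈ L) {w : (ℤ × ℤ) × (ℤ × ℤ)} (hw : w ≠ 0) : ker N p0 p q w ∈ L := by
  obtain ⟨h1, h2⟩ := off_zero N hw
  have := comb_mem (K := Unit ⊕ (Fin N ⊕ Fin N)) L
    (Sum.elim (fun _ => p0) (Sum.elim q p))
    (by rintro (_ | c | c); exacts [h0, hq c, hp c])
    (Sum.elim (fun _ => restF N w) (Sum.elim (fun c => negF N c w) (fun c => posF N c w)))
    (by rintro (_ | c | c); exacts [h2, h1 c, posF_nonneg N c w])
    (by simp only [Fintype.sum_sum_type, Sum.elim_inl, Sum.elim_inr, Finset.univ_unique,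
          Finset.sum_singleton]; unfold restF; ring)
  simpa only [Fintype.sum_sum_type, Sum.elim_inl, Sum.elim_inr, Finset.univ_unique,
          Finset.sum_singleton, ker, add_assoc] using this

/-! ### The rank of the kernel -/

/-- positions of the points of the planar box -/
def posP (μ : ℕ) (x : Fin μ × Fin μ) : ℤ × ℤ := ((x.1 : ℕ), (x.2 : ℕ))

/-- planar functions with kernels of rank `O(μ)` -/
abbrev S2 (F : Type*) [Field F] : Submodule F (ℤ × ℤ → F) :=
  goodSub F (fun μ => Fin μ × Fin μ) posP (fun μ => μ)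

/-- functions on the product with kernels of rank `O(μ²)` -/
abbrev S4 (F : Type*) [Field F] : Submodule F ((ℤ × ℤ) × (ℤ × ℤ) → F) :=
  goodSub F (fun μ => (Fin μ × Fin μ) × (Fin μ × Fin μ))
    (fun μ x => (posP μ x.1, posP μ x.2)) (fun μ => μ * μ)

theorem lin_mem (i : ℕ) (h : ℤ → F) : (fun w => h (lin i w)) ∈ S2 F := by
  refine good_comp (lin i) h (i + 1) fun μ => ?_
  have : (univ.image fun x : Fin μ × Fin μ => lin i (posP μ x)) ⊆
      Finset.Ico (-(i * μ : ℤ)) μ := by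
    intro t ht
    obtain ⟨x, -, rfl⟩ := mem_image.1 ht
    have h1 : ((x.1 : ℕ) : ℤ) < μ := by exact_mod_cast x.1.2
    have h2 : ((x.2 : ℕ) : ℤ) < μ := by exact_mod_cast x.2.2
    have h3 : (0 : ℤ) ≤ ((x.1 : ℕ) : ℤ) := by positivity
    have h4 : (0 : ℤ) ≤ ((x.2 : ℕ) : ℤ) := by positivity
    have h5 : (0 : ℤ) ≤ i := by positivity
    rw [mem_Ico, lin_apply]
    simp only [posP]
    constructor <;> nlinarith
  refine (card_le_card this).trans ?_
  rw [Int.card_Ico]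
  have : ((μ : ℤ) - -(i * μ : ℤ)) = (((i + 1) * μ : ℕ) : ℤ) := by push_cast; ring
  rw [this, Int.toNat_natCast]

theorem gI_mem (i : ℕ) : (fun w => (gI i w : F)) ∈ S2 F :=
  lin_mem i fun t => ((if 0 < t then 1 else 0 : ℤ) : F)

theorem eI_mem (i : ℕ) : (fun w => (eI i w : F)) ∈ S2 F :=
  lin_mem i fun t => ((if t = 0 then 1 else 0 : ℤ) : F)

theorem one_mem2 : (fun _ => (1 : F)) ∈ S2 F := lin_mem 0 fun _ => 1

theorem sum_mem2 {W : Type*} {S : Submodule F (W → F)} {f : Fin N → W → F} (h : ∀ c, f c ∈ S) :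
    (fun w => ∑ c, f c w) ∈ S := by
  have : (fun w => ∑ c, f c w) = ∑ c, f c := by ext w; simp
  rw [this]
  exact S.sum_mem fun c _ => h c

theorem fA_mem : (fun w => (fA N w : F)) ∈ S2 F := by
  have : (fun w => (fA N w : F)) = fun w => (∑ c : Fin N, (gI (2 * c) w : F)) +
      (gI (2 * N) w : F) - ∑ c : Fin N, ((gI (2 * c + 1) w : F) + (eI (2 * c + 1) w : F)) := by
    ext w; unfold fA; push_cast; rfl
  rw [this]
  exact (S2 F).sub_mem ((S2 F).add_mem (sum_mem2 N fun c => gI_mem _) (gI_mem _))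
    (sum_mem2 N fun c => (S2 F).add_mem (gI_mem _) (eI_mem _))

theorem fB_mem : (fun w => (fB N w : F)) ∈ S2 F := by
  have : (fun w => (fB N w : F)) = fun w => 1 - (∑ c : Fin N, ((gI (2 * c) w : F) +
      (eI (2 * c) w : F))) - ((gI (2 * N) w : F) + (eI (2 * N) w : F)) +
      ∑ c : Fin N, (gI (2 * c + 1) w : F) := by
    ext w; unfold fB; push_cast; rfl
  rw [this]
  exact (S2 F).add_mem ((S2 F).sub_mem ((S2 F).sub_mem one_mem2
    (sum_mem2 N fun c => (S2 F).add_mem (gI_mem _) (eI_mem _)))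
    ((S2 F).add_mem (gI_mem _) (eI_mem _))) (sum_mem2 N fun c => gI_mem _)

theorem mul_mem4 {g h : ℤ × ℤ → F} (hg : g ∈ S2 F) (hh : h ∈ S2 F) :
    (fun w : (ℤ × ℤ) × (ℤ × ℤ) => g w.1 * h w.2) ∈ S4 F := good_mul hg hh

theorem d1_mem : (fun w : (ℤ × ℤ) × (ℤ × ℤ) => (dI w.1 : F)) ∈ S4 F := by
  refine good_comp (AddMonoidHom.fst (ℤ × ℤ) (ℤ × ℤ)) (fun v => (dI v : F)) 1 fun μ => ?_
  have : (univ.image fun x : (Fin μ × Fin μ) × (Fin μ × Fin μ) =>
      (AddMonoidHom.fst (ℤ × ℤ) (ℤ × ℤ)) (posP μ x.1, posP μ x.2)) ⊆ univ.image (posP μ) := by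
    intro t ht
    obtain ⟨x, -, rfl⟩ := mem_image.1 ht
    exact mem_image_of_mem _ (mem_univ _)
  refine (card_le_card this).trans (card_image_le.trans ?_)
  simp

theorem d2_mem : (fun w : (ℤ × ℤ) × (ℤ × ℤ) => (dI w.2 : F)) ∈ S4 F := by
  refine good_comp (AddMonoidHom.snd (ℤ × ℤ) (ℤ × ℤ)) (fun v => (dI v : F)) 1 fun μ => ?_
  have : (univ.image fun x : (Fin μ × Fin μ) × (Fin μ × Fin μ) =>
      (AddMonoidHom.snd (ℤ × ℤ) (ℤ × ℤ)) (posP μ x.1, posP μ x.2)) ⊆ univ.image (posP μ) := by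
    intro t ht
    obtain ⟨x, -, rfl⟩ := mem_image.1 ht
    exact mem_image_of_mem _ (mem_univ _)
  refine (card_le_card this).trans (card_image_le.trans ?_)
  simp

theorem posF_mem (c : Fin N) : (fun w => (posF N c w : F)) ∈ S4 F := by
  have : (fun w => (posF N c w : F)) =
      fun w => (eI (2 * c + 1) w.1 : F) * (eI (2 * c + 1) w.2 : F) := by
    ext w; unfold posF; push_cast; rfl
  rw [this]
  exact mul_mem4 (eI_mem _) (eI_mem _)

theorem negF_mem (c : Fin N) : (fun w => (negF N c w : F)) ∈ S4 F := by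
  have : (fun w => (negF N c w : F)) = fun w =>
      (eI (2 * c) w.1 : F) * ((∑ i : Fin N, (eI (2 * i) w.2 : F)) + (fA N w.2 : F))
      + (∑ i : Fin N, (eI (2 * i) w.1 : F)) * (eI (2 * c + 1) w.2 : F)
      + (eI (2 * c + 1) w.1 : F) * ((∑ i : Fin N, (eI (2 * i + 1) w.2 : F))
          - (eI (2 * c + 1) w.2 : F) + (eI (2 * N) w.2 : F) + (fB N w.2 : F))
      + ((∑ i : Fin N, (eI (2 * i + 1) w.1 : F)) + (fA N w.1 : F)) * (eI (2 * c) w.2 : F)
      + ((eI (2 * N) w.1 : F) + (fB N w.1 : F)) * (eI (2 * c + 1) w.2 : F)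
      - (dI w.1 : F) - (dI w.2 : F) := by
    ext w; unfold negF neg1; push_cast; rfl
  rw [this]
  have hE : (fun w : ℤ × ℤ => ∑ i : Fin N, (eI (2 * i) w : F)) ∈ S2 F :=
    sum_mem2 N fun c => eI_mem _
  have hO : (fun w : ℤ × ℤ => ∑ i : Fin N, (eI (2 * i + 1) w : F)) ∈ S2 F :=
    sum_mem2 N fun c => eI_mem _
  have t1 := mul_mem4 (F := F) (eI_mem (2 * c)) ((S2 F).add_mem hE (fA_mem N))
  have t2 := mul_mem4 (F := F) hE (eI_mem (2 * c + 1))
  have t3 := mul_mem4 (F := F) (eI_mem (2 * c + 1)) ((S2 F).add_mem ((S2 F).add_mem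
    ((S2 F).sub_mem hO (eI_mem (2 * c + 1))) (eI_mem (2 * N))) (fB_mem N))
  have t4 := mul_mem4 (F := F) ((S2 F).add_mem hO (fA_mem N)) (eI_mem (2 * c))
  have t5 := mul_mem4 (F := F) ((S2 F).add_mem (eI_mem (2 * N)) (fB_mem N)) (eI_mem (2 * c + 1))
  exact (S4 F).sub_mem ((S4 F).sub_mem ((S4 F).add_mem ((S4 F).add_mem ((S4 F).add_mem
    ((S4 F).add_mem t1 t2) t3) t4) t5) d1_mem) d2_mem

theorem restF_mem : (fun w => (restF N w : F)) ∈ S4 F := by
  have : (fun w => (restF N w : F)) = fun w => (1 : F) * 1 - (∑ c : Fin N, (negF N c w : F))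
      - (∑ c : Fin N, (posF N c w : F)) := by
    ext w; unfold restF; push_cast; ring
  rw [this]
  exact (S4 F).sub_mem ((S4 F).sub_mem (mul_mem4 one_mem2 one_mem2)
    (sum_mem2 N fun c => negF_mem N c)) (sum_mem2 N fun c => posF_mem N c)

theorem ker_mem4 (p0 : F) (p q : Fin N → F) : ker N p0 p q ∈ S4 F := by
  have : ker N p0 p q = fun w => p0 * (restF N w : F) + ∑ c, q c * (negF N c w : F)
      + ∑ c, p c * (posF N c w : F) := rfl
  rw [this]
  exact (S4 F).add_mem ((S4 F).add_mem ((S4 F).smul_mem p0 (restF_mem N))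
    (sum_mem2 N fun c => (S4 F).smul_mem (q c) (negF_mem N c)))
    (sum_mem2 N fun c => (S4 F).smul_mem (p c) (posF_mem N c))

end Kernel

/-! ### The main construction -/

section Main

variable {F : Type*} [Field F]

theorem posP_injective (μ : ℕ) : Function.Injective (posP μ) := by
  intro x y h
  have h1 := congrArg Prod.fst h
  have h2 := congrArg Prod.snd h
  simp only [posP, Nat.cast_inj] at h1 h2
  exact Prod.ext (Fin.ext h1) (Fin.ext h2)

/-- Matrices of size `μ⁴` and rank `O(μ²)`. -/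
theorem exists_matrix (L : Finset F) (N : ℕ) (p0 : F) (p q : Fin N → F) (h0 : p0 ∈ L)
    (hp : ∀ c, p c ∈ L) (hq : ∀ c, q c ∈ L) (h : p0 + ∑ c, p c = ∑ c, q c) :
    ∃ C : ℕ, ∀ μ : ℕ, ∃ M : Matrix (Fin (μ ^ 4)) (Fin (μ ^ 4)) F, (∀ i, M i i = 0) ∧
      (∀ i j, i ≠ j → M i j ∈ L) ∧ M.rank ≤ C * (μ * μ) := by
  obtain ⟨C, hC⟩ := good_rank (ker_mem4 N p0 p q)
  refine ⟨C, fun μ => ?_⟩
  have hcard : Fintype.card (Fin (μ ^ 4)) =
      Fintype.card ((Fin μ × Fin μ) × (Fin μ × Fin μ)) := by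
    simp; ring
  let e := Fintype.equivOfCardEq hcard
  refine ⟨(Matrix.of fun x y : (Fin μ × Fin μ) × (Fin μ × Fin μ) =>
    ker N p0 p q ((posP μ y.1, posP μ y.2) - (posP μ x.1, posP μ x.2))).submatrix e e, ?_, ?_, ?_⟩
  · intro i
    simp only [Matrix.submatrix_apply, Matrix.of_apply, sub_self]
    exact ker_zero N p0 p q h
  · intro i j hij
    simp only [Matrix.submatrix_apply, Matrix.of_apply]
    apply ker_mem N L p0 p q h0 hp hq
    rw [sub_ne_zero]
    intro h'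
    apply hij
    apply e.injective
    have h1 := congrArg Prod.fst h'
    have h2 := congrArg Prod.snd h'
    exact (Prod.ext (posP_injective μ h1) (posP_injective μ h2)).symm
  · rw [Matrix.rank_submatrix]
    exact hC μ

/-- A primitive relation, with the elements of `L` repeated according to their coefficients. -/
theorem unfold_relation (L : Finset F) (A : F → ℤ) (h1 : ∑ a ∈ L, (A a : F) * a = 0)
    (h2 : ∑ a ∈ L, A a = 1) :
    ∃ (N : ℕ) (p0 : F) (p q : Fin N → F), p0 ∈ L ∧ (∀ c, p c ∈ L) ∧ (∀ c, q c ∈ L) ∧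
      p0 + ∑ c, p c = ∑ c, q c := by
  classical
  let Sp := Σ a : L, Fin (A a).toNat
  let Sn := Σ a : L, Fin (-A a).toNat
  have hcard : Fintype.card Sp = Fintype.card Sn + 1 := by
    have e1 : (Fintype.card Sp : ℤ) = ∑ a : L, ((A a).toNat : ℤ) := by
      simp [Sp, Fintype.card_sigma]
    have e2 : (Fintype.card Sn : ℤ) = ∑ a : L, ((-A a).toNat : ℤ) := by
      simp [Sn, Fintype.card_sigma]
    have e3 : ∑ a : L, A a = 1 := by
      rw [← h2]; exact Finset.sum_coe_sort L A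
    have e4 : ∀ a : L, A a = ((A a).toNat : ℤ) - ((-A a).toNat : ℤ) := by intro a; omega
    have e5 : ∑ a : L, A a = (Fintype.card Sp : ℤ) - Fintype.card Sn := by
      rw [e1, e2, ← Finset.sum_sub_distrib]
      exact Finset.sum_congr rfl fun a _ => e4 a
    omega
  let en : Fin (Fintype.card Sn) ≃ Sn := (Fintype.equivFin Sn).symm
  let ep : Fin (Fintype.card Sn + 1) ≃ Sp := (Fintype.equivFinOfCardEq hcard).symm
  refine ⟨Fintype.card Sn, (ep 0).1, fun c => (ep c.succ).1, fun c => (en c).1,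
    (ep 0).1.2, fun c => (ep c.succ).1.2, fun c => (en c).1.2, ?_⟩
  have f1 := Fin.sum_univ_succ (fun c : Fin (Fintype.card Sn + 1) => (((ep c).1 : L) : F))
  rw [← f1, Equiv.sum_comp ep (fun s : Sp => ((s.1 : L) : F)),
    Equiv.sum_comp en (fun s : Sn => ((s.1 : L) : F))]
  rw [Fintype.sum_sigma, Fintype.sum_sigma]
  simp only [Finset.sum_const, Finset.card_univ, Fintype.card_fin, nsmul_eq_mul]
  rw [← sub_eq_zero, ← Finset.sum_sub_distrib, ← h1, ← Finset.sum_coe_sort L]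
  refine Finset.sum_congr rfl fun a _ => ?_
  have e4 : (A a : F) = (((A a).toNat : ℤ) : F) - (((-A a).toNat : ℤ) : F) := by
    rw [← Int.cast_sub]; congr 1; omega
  rw [e4]; push_cast; ring

end Main

end Pool.Agent.Helper60.QGrowth

open Pool.Agent.Helper60.QGrowth in
/-- If a finite set `L ⊆ F \ {0}` admits a primitive linear relation, then `N(r, L) = Ω(r²)`. -/
theorem Pool.Agent.Results.MP_22c17e_co.QuadraticGrowth.result
    (F : Type*) [Field F] (L : Finset F) (_h0 : (0 : F) ∉ L) (A : F → ℤ)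
    (h1 : ∑ a ∈ L, (A a : F) * a = 0) (h2 : ∑ a ∈ L, A a = 1) :
    ∃ c : ℝ, 0 < c ∧ ∃ r₀ : ℕ, ∀ r : ℕ, r₀ ≤ r → ∃ n : ℕ, c * (r : ℝ) ^ 2 ≤ (n : ℝ) ∧
      ∃ M : Matrix (Fin n) (Fin n) F,
        (∀ i, M i i = 0) ∧ (∀ i j, i ≠ j → M i j ∈ L) ∧ M.rank ≤ r := by
  obtain ⟨N, p0, p, q, hp0, hp, hq, h⟩ := unfold_relation L A h1 h2
  obtain ⟨C', hC'⟩ := exists_matrix L N p0 p q hp0 hp hq h
  -- make the constant positive
  obtain ⟨C, hC0, hC⟩ : ∃ C : ℕ, 0 < C ∧ ∀ μ : ℕ, ∃ M : Matrix (Fin (μ ^ 4)) (Fin (μ ^ 4)) F,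
      (∀ i, M i i = 0) ∧ (∀ i j, i ≠ j → M i j ∈ L) ∧ M.rank ≤ C * (μ * μ) := by
    refine ⟨C' + 1, Nat.succ_pos _, fun μ => ?_⟩
    obtain ⟨M, a, b, c⟩ := hC' μ
    exact ⟨M, a, b, c.trans (Nat.mul_le_mul_right _ (Nat.le_succ _))⟩
  refine ⟨1 / (16 * (C : ℝ) ^ 2), by positivity, C, fun r hr => ?_⟩
  set μ := Nat.sqrt (r / C) with hμ
  obtain ⟨M, a, b, c⟩ := hC μ
  refine ⟨μ ^ 4, ?_, M, a, b, c.trans ?_⟩
  · have h3 : 1 ≤ r / C := (Nat.one_le_div_iff hC0).2 hr
    have h4 : 1 ≤ μ := Nat.le_sqrt.2 (by simpa using h3)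
    have h5 : r / C < (μ + 1) * (μ + 1) := Nat.lt_succ_sqrt _
    have h6 : r < C * ((μ + 1) * (μ + 1)) := by
      rw [mul_comm]; exact (Nat.div_lt_iff_lt_mul hC0).1 h5
    have h7 : (r : ℝ) ≤ C * (4 * (μ : ℝ) ^ 2) := by
      have h8 : (r : ℝ) < C * ((μ + 1) * (μ + 1)) := by exact_mod_cast h6
      have h9 : (1 : ℝ) ≤ μ := by exact_mod_cast h4
      have hc : (0 : ℝ) < C := by exact_mod_cast hC0
      have h11 : ((μ : ℝ) + 1) * (μ + 1) ≤ 4 * (μ : ℝ) ^ 2 := by nlinarith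
      exact h8.le.trans (mul_le_mul_of_nonneg_left h11 hc.le)
    have hc : (0 : ℝ) < C := by exact_mod_cast hC0
    rw [div_mul_eq_mul_div, one_mul, div_le_iff₀ (by positivity)]
    push_cast
    have h10 : (0 : ℝ) ≤ r := by positivity
    calc (r : ℝ) ^ 2 ≤ (C * (4 * (μ : ℝ) ^ 2)) ^ 2 := by gcongr
      _ = (μ : ℝ) ^ 4 * (16 * (C : ℝ) ^ 2) := by ring
  · calc C * (μ * μ) ≤ C * (r / C) := Nat.mul_le_mul_left _ (Nat.sqrt_le _)
      _ ≤ r := Nat.mul_div_le r C
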